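import Mathlib
import Pool.Agent.Run7.h858.Tri235

set_option autoImplicit false

namespace Pool.Agent.Results.MP_73c65d_al.SphericalTriple

open Equiv
open scoped commutatorElement

set_option maxRecDepth 100000

/-- `n` is admissible for `p, q, r, u`: `n ≥ 3` and the alternating group `A_n` is generated by
`ξ, η, ζ` with `ξ^p = η^q = ζ^r = ξ η ζ u(ξ,η,ζ) = 1`. -/
def Admissible (p q r : ℕ) (u : FreeGroup (Fin 3)) (n : ℕ) : Prop :=
  3 ≤ n ∧ ∃ ξ η ζ : alternatingGroup (Fin n), Subgroup.closure {ξ, η, ζ} = ⊤ ∧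
    ξ ^ p = 1 ∧ η ^ q = 1 ∧ ζ ^ r = 1 ∧ ξ * η * ζ * FreeGroup.lift ![ξ, η, ζ] u = 1

/-- The product `xyz` of the three free generators. -/
def xyz : FreeGroup (Fin 3) := FreeGroup.of 0 * FreeGroup.of 1 * FreeGroup.of 2

/-- The commutator word `u_g = (xyz)⁻¹ g (xyz) g⁻¹`. -/
def cw (g : FreeGroup (Fin 3)) : FreeGroup (Fin 3) := xyz⁻¹ * g * xyz * g⁻¹

theorem cw_mem (g : FreeGroup (Fin 3)) : cw g ∈ commutator (FreeGroup (Fin 3)) := by
  have h : cw g = ⁅xyz⁻¹, g⁆ := by
    rw [commutatorElement_def, inv_inv]; rfl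
  rw [h]
  exact Subgroup.commutator_mem_commutator (Subgroup.mem_top _) (Subgroup.mem_top _)

theorem lift_cw {Γ : Type*} [Group Γ] (ξ η ζ : Γ) (g : FreeGroup (Fin 3)) :
    ξ * η * ζ * FreeGroup.lift ![ξ, η, ζ] (cw g) = 1 ↔ ξ * η * ζ = 1 := by
  have hw : FreeGroup.lift ![ξ, η, ζ] xyz = ξ * η * ζ := by
    simp [xyz]
  have h : ξ * η * ζ * FreeGroup.lift ![ξ, η, ζ] (cw g) =
      FreeGroup.lift ![ξ, η, ζ] g * (ξ * η * ζ) * (FreeGroup.lift ![ξ, η, ζ] g)⁻¹ := by
    rw [cw, map_mul, map_mul, map_mul, map_inv, map_inv, hw]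
    simp only [mul_assoc, mul_inv_rev]
    group
  rw [h]
  constructor
  · intro h1
    rw [mul_inv_eq_one] at h1
    exact mul_left_cancel (h1.trans (mul_one _).symm)
  · intro h1
    rw [h1, mul_one, mul_inv_cancel]

/-- The forward direction. -/
theorem only_five {n : ℕ} (hn : 3 ≤ n) (ξ η ζ : alternatingGroup (Fin n))
    (hgen : Subgroup.closure {ξ, η, ζ} = ⊤) (hξ : ξ ^ 2 = 1) (hη : η ^ 3 = 1) (hζ : ζ ^ 5 = 1)
    (hprod : ξ * η * ζ = 1) : n = 5 := by
  have hn2 : Nontrivial (Fin n) := by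
    have : Fact (1 < n) := ⟨by omega⟩
    exact Fin.nontrivial_iff_two_le.2 (by omega)
  have hcard : 2 * Nat.card (alternatingGroup (Fin n)) = n.factorial := by
    rw [two_mul_nat_card_alternatingGroup, Nat.card_perm, Nat.card_fin]
  have hζ' : ζ = (ξ * η)⁻¹ := (inv_eq_of_mul_eq_one_right hprod).symm
  have hgen2 : Subgroup.closure ({ξ, η} : Set (alternatingGroup (Fin n))) = ⊤ := by
    rw [eq_top_iff, ← hgen, Subgroup.closure_le]
    rintro x (rfl | rfl | rfl)
    · exact Subgroup.subset_closure (by simp)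
    · exact Subgroup.subset_closure (by simp)
    · rw [hζ']
      exact Subgroup.inv_mem _ (Subgroup.mul_mem _ (Subgroup.subset_closure (by simp))
        (Subgroup.subset_closure (by simp)))
  have h5 : (ξ * η) ^ 5 = 1 := by
    have : (ξ * η)⁻¹ ^ 5 = 1 := by rw [← hζ']; exact hζ
    rwa [inv_pow, inv_eq_one] at this
  obtain ⟨s, hs, hall⟩ := Run7.h858.Tri235.card_le ξ η hξ hη h5 hgen2
  have hle : Nat.card (alternatingGroup (Fin n)) ≤ 60 := by
    rw [Nat.card_eq_fintype_card, ← Finset.card_univ]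
    exact (Finset.card_le_card fun x _ => hall x).trans hs
  have hn5 : n ≤ 5 := by
    by_contra h
    have h6 : Nat.factorial 6 ≤ n.factorial := Nat.factorial_le (by omega)
    have : Nat.factorial 6 = 720 := rfl
    omega
  by_contra hne
  have hnot : ¬ 5 ∣ Nat.card (alternatingGroup (Fin n)) := by
    have h34 : n = 3 ∨ n = 4 := by omega
    rcases h34 with rfl | rfl
    · have : Nat.factorial 3 = 6 := rfl
      omega
    · have : Nat.factorial 4 = 24 := rfl
      omega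
  have hζ1 : ζ = 1 := by
    have h1 : orderOf ζ ∣ 5 := orderOf_dvd_of_pow_eq_one hζ
    rcases (Nat.dvd_prime (by norm_num)).1 h1 with h | h
    · exact orderOf_eq_one_iff.1 h
    · exact absurd (h ▸ orderOf_dvd_natCard ζ) hnot
  rw [hζ1, mul_one] at hprod
  have hη' : η = ξ⁻¹ := (inv_eq_of_mul_eq_one_right hprod).symm
  have hξ1 : ξ = 1 := by
    rw [hη', inv_pow, inv_eq_one, pow_succ, hξ, one_mul] at hη
    exact hη
  have hη1 : η = 1 := by rw [hη', hξ1, inv_one]
  rw [hξ1, hη1] at hgen2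
  have hbot : (⊤ : Subgroup (alternatingGroup (Fin n))) = ⊥ := by
    rw [← hgen2, eq_bot_iff, Subgroup.closure_le]
    rintro x (rfl | rfl) <;> simp
  have hc1 : Nat.card (alternatingGroup (Fin n)) = 1 := by
    rw [← Subgroup.card_top, hbot, Subgroup.card_bot]
  have h6 : Nat.factorial 3 ≤ n.factorial := Nat.factorial_le hn
  have : Nat.factorial 3 = 6 := rfl
  omega

def ξ₀ : alternatingGroup (Fin 5) := ⟨c[0, 1] * c[2, 3], Equiv.Perm.mem_alternatingGroup.2 (by decide)⟩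
def η₀ : alternatingGroup (Fin 5) := ⟨c[1, 2, 4], Equiv.Perm.mem_alternatingGroup.2 (by decide)⟩

theorem gen_five : Subgroup.closure ({ξ₀, η₀, (ξ₀ * η₀)⁻¹} : Set (alternatingGroup (Fin 5))) = ⊤ := by
  set H := Subgroup.closure ({ξ₀, η₀, (ξ₀ * η₀)⁻¹} : Set (alternatingGroup (Fin 5))) with hH
  have m1 : ξ₀ ∈ H := Subgroup.subset_closure (by simp)
  have m2 : η₀ ∈ H := Subgroup.subset_closure (by simp)
  have m3 : ξ₀ * η₀ ∈ H := H.mul_mem m1 m2
  have o1 : orderOf ξ₀ = 2 := orderOf_eq_prime (by decide) (by decide)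
  have o2 : orderOf η₀ = 3 := orderOf_eq_prime (by decide) (by decide)
  have : Fact (Nat.Prime 5) := ⟨by norm_num⟩
  have o3 : orderOf (ξ₀ * η₀) = 5 := orderOf_eq_prime (by decide) (by decide)
  have d1 : 2 ∣ Nat.card H := o1 ▸ Subgroup.orderOf_dvd_natCard H m1
  have d2 : 3 ∣ Nat.card H := o2 ▸ Subgroup.orderOf_dvd_natCard H m2
  have d3 : 5 ∣ Nat.card H := by
    have h := Subgroup.orderOf_dvd_natCard H m3
    rwa [o3] at h
  have hcard : 2 * Nat.card (alternatingGroup (Fin 5)) = Nat.factorial 5 := by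
    rw [two_mul_nat_card_alternatingGroup, Nat.card_perm, Nat.card_fin]
  have h120 : Nat.factorial 5 = 120 := rfl
  have hidx := H.index_mul_card
  have hpos : 0 < Nat.card H := Nat.card_pos
  obtain ⟨k, hk⟩ : 30 ∣ Nat.card H := by
    have : 2 * 3 * 5 ∣ Nat.card H := by
      apply Nat.Coprime.mul_dvd_of_dvd_of_dvd (by norm_num) _ d3
      exact Nat.Coprime.mul_dvd_of_dvd_of_dvd (by norm_num) d1 d2
    simpa using this
  have hk2 : H.index * k = 2 := by
    rw [hk] at hidx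
    nlinarith
  have hi : H.index = 1 ∨ H.index = 2 := by
    have : H.index ∣ 2 := ⟨k, hk2.symm⟩
    exact (Nat.dvd_prime Nat.prime_two).1 this
  rcases hi with hi | hi
  · exact Subgroup.index_eq_one.1 hi
  · have hnorm : H.Normal := Subgroup.normal_of_index_eq_two hi
    rcases hnorm.eq_bot_or_eq_top with h | h
    · rw [h] at m1
      have : ξ₀ = 1 := by simpa using m1
      exact absurd this (by decide)
    · exact h

/-- For the distinct primes `2, 3, 5` and every commutator word `u_g`, the only admissible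
`n ≥ 3` is `n = 5`. -/
theorem result (g : FreeGroup (Fin 3)) :
    cw g ∈ commutator (FreeGroup (Fin 3)) ∧ ∀ n : ℕ, Admissible 2 3 5 (cw g) n ↔ n = 5 := by
  refine ⟨cw_mem g, fun n => ⟨?_, ?_⟩⟩
  · rintro ⟨hn, ξ, η, ζ, hgen, hξ, hη, hζ, hu⟩
    exact only_five hn ξ η ζ hgen hξ hη hζ ((lift_cw ξ η ζ g).1 hu)
  · rintro rfl
    exact ⟨by norm_num, ξ₀, η₀, (ξ₀ * η₀)⁻¹, gen_five, by decide, by decide, by decide,
      (lift_cw _ _ _ g).2 (mul_inv_cancel _)⟩

end Pool.Agent.Results.MP_73c65d_al.SphericalTriple
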